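import Pool.Agent.H261R2.CM.L2

/-!
# Lehmer's problem for integer polynomials with bounded `∫ log⁺ |f|`

For every `K` there is `c > 1` such that every nonzero integer polynomial `f` with
`∫ log⁺ |f| ≤ K` on the unit circle has `M(f) = 1` or `M(f) ≥ c`; the same for
`∫ |f| ^ p ≤ K` with any `p > 0`, and, in several variables, for all `F` having a coprime companion
`G` with `∫ log max(|F|, |G|) ≤ K`, in which case there is also a smallest measure above `1`.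

The integer polynomials with bounded `∫ log⁺ |f|` are exactly the quotients `P / Φ` of
polynomials of bounded length with `M(Φ) = 1`.
-/

set_option autoImplicit false

namespace Pool.Agent.Results.MP_dc0c68_nt.BoundedLogPlus

open Polynomial

noncomputable section

/-- Value of an integer polynomial in one variable at the point `exp (2 π i t)`. -/
def value1 (f : ℤ[X]) (t : ℝ) : ℂ :=
  (f.map (Int.castRingHom ℂ)).eval (Complex.exp (2 * (Real.pi : ℂ) * Complex.I * (t : ℂ)))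

/-- The Mahler measure of an integer polynomial in one variable. -/
def mahler1 (f : ℤ[X]) : ℝ := (f.map (Int.castRingHom ℂ)).mahlerMeasure

/-- The integral of `log⁺ |f|` over the unit circle. -/
def logPlus (f : ℤ[X]) : ℝ := ∫ t in (0:ℝ)..1, Real.log (max ‖value1 f t‖ 1)

/-- The length (sum of the absolute values of the coefficients). -/
def length (f : ℤ[X]) : ℤ := ∑ i ∈ f.support, |f.coeff i|

/-- Value of an integer polynomial in `k` variables at the torus point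
`(exp (2 π i t_1), …, exp (2 π i t_k))`. -/
def value {k : ℕ} (F : MvPolynomial (Fin k) ℤ) (t : Fin k → ℝ) : ℂ :=
  MvPolynomial.eval (fun j : Fin k => Complex.exp (2 * (Real.pi : ℂ) * Complex.I * ((t j : ℝ) : ℂ)))
    (MvPolynomial.map (Int.castRingHom ℂ) F)

/-- The Mahler measure of an integer polynomial in `k` variables. -/
def mahler {k : ℕ} (F : MvPolynomial (Fin k) ℤ) : ℝ :=
  Real.exp (∫ t in Set.Icc (0 : Fin k → ℝ) 1, Real.log ‖value F t‖)

/-- The integral of `log max(|F|, |G|)` over the torus. -/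
def pairHeight {k : ℕ} (F G : MvPolynomial (Fin k) ℤ) : ℝ :=
  ∫ t in Set.Icc (0 : Fin k → ℝ) 1, Real.log (max ‖value F t‖ ‖value G t‖)

/-- The Mahler measures of the nonzero polynomials `F` having a coprime companion `G ≠ 0` with
`∫ log max(|F|, |G|) ≤ K`. -/
def L (K : ℝ) : Set ℝ :=
  {x : ℝ | ∃ k : ℕ, 1 ≤ k ∧ ∃ F G : MvPolynomial (Fin k) ℤ, F ≠ 0 ∧ G ≠ 0 ∧ IsRelPrime F G ∧
    pairHeight F G ≤ K ∧ x = mahler F}

theorem result :
    (∀ K : ℝ, ∃ c : ℝ, 1 < c ∧ ∀ f : ℤ[X], f ≠ 0 → logPlus f ≤ K → mahler1 f = 1 ∨ c ≤ mahler1 f) ∧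
    (∀ p : ℝ, 0 < p → ∀ K : ℝ, ∃ c : ℝ, 1 < c ∧ ∀ f : ℤ[X], f ≠ 0 →
      (∫ t in (0:ℝ)..1, ‖value1 f t‖ ^ p) ≤ K → mahler1 f = 1 ∨ c ≤ mahler1 f) ∧
    (∀ K : ℝ, ∃ N : ℕ, ∀ f : ℤ[X], f ≠ 0 → logPlus f ≤ K →
      ∃ Φ : ℤ[X], Φ ≠ 0 ∧ mahler1 Φ = 1 ∧ length Φ ≤ N ∧ length (f * Φ) ≤ N) ∧
    (∀ (N : ℕ) (f Φ : ℤ[X]), f ≠ 0 → Φ ≠ 0 → mahler1 Φ = 1 → length Φ ≤ N → length (f * Φ) ≤ N →
      logPlus f ≤ Real.log N) ∧
    (∀ K : ℝ, ∃ c : ℝ, 1 < c ∧ ∀ (k : ℕ) (F G : MvPolynomial (Fin k) ℤ), F ≠ 0 → G ≠ 0 →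
      IsRelPrime F G → pairHeight F G ≤ K → mahler F = 1 ∨ c ≤ mahler F) ∧
    (∀ K : ℝ, (∃ x ∈ L K, 1 < x) → ∃ m ∈ L K, 1 < m ∧ ∀ x ∈ L K, 1 < x → m ≤ x) := by
  have hlp : ∀ f : ℤ[X], logPlus f = Pool.Agent.H261R2.CM.mx1 f 1 := by
    intro f
    unfold logPlus Pool.Agent.H261R2.CM.mx1
    refine intervalIntegral.integral_congr fun t _ => ?_
    simp only [Pool.Agent.H261R2.CM.ev1_one, norm_one]
    rfl
  refine ⟨fun K => ?_, fun p hp K => Pool.Agent.H261R2.CM.gap_lp p hp K, fun K => ?_, ?_,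
    Pool.Agent.H261R2.CM.gap_all, Pool.Agent.H261R2.CM.LL_min⟩
  · obtain ⟨c, hc, h⟩ := Pool.Agent.H261R2.CM.gap_logplus K
    exact ⟨c, hc, fun f hf hK => h f hf (by rw [← hlp]; exact hK)⟩
  · obtain ⟨N, h⟩ := Pool.Agent.H261R2.CM.logplus_structure K
    exact ⟨N, fun f hf hK => h f hf (by rw [← hlp]; exact hK)⟩
  · intro N f Φ hf hΦ hm h1 h2
    rw [hlp]
    exact Pool.Agent.H261R2.CM.logplus_converse N f Φ hf hΦ hm h1 h2

end

end Pool.Agent.Results.MP_dc0c68_nt.BoundedLogPlus
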