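import Mathlib
import Pool.Prelude.Def_F_0dc91acc
import Pool.Agent.H338R2.IndexN
import Pool.Agent.H338R2.Frob

/-!
# Few irreducible polynomials of small Mahler measure in each residue class modulo `n`

Let `n ≥ 2` and let `S` be a set of `k` monic irreducible integer polynomials of degree at most `d`
and Mahler measure at most `μ` whose reductions modulo `n` have a common monic factor `g`.  Then for
all `r`  `n ^ (r * k * deg g) ≤ ((k * d) ^ k * n ^ (r (r + 1) / 2)) ^ d * μ ^ (k ^ 2 * d)`.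

Method: the ideal `(n, g)^r` has index `n ^ (deg g * r (r + 1) / 2)`, so by the box principle it
contains a nonzero polynomial `G` with small coefficients and degree less than the sum `D` of the
degrees of the members of `S`; so `G` is not divisible by all of them, and the resultant of `G` and
a member of `S` that does not divide it is a nonzero multiple of `n ^ (r * deg g)`.
-/

set_option autoImplicit false

open Polynomial N60ffa576

namespace Pool.Agent.Results.MP_dc0c68_nt.FewPerResidueClass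

open Pool.Agent.H338R2

lemma prod_dvd_of_all (S : Finset ℤ[X]) (G : ℤ[X]) (hS : ∀ f ∈ S, f.Monic ∧ Irreducible f)
    (hG : ∀ f ∈ S, f ∣ G) : (∏ f ∈ S, f) ∣ G := by
  classical
  induction S using Finset.induction_on with
  | empty => simp
  | insert a S' ha ih =>
    rw [Finset.prod_insert ha]
    obtain ⟨Q, hQ⟩ := ih (fun f hf => hS f (Finset.mem_insert_of_mem hf))
      (fun f hf => hG f (Finset.mem_insert_of_mem hf))
    obtain ⟨ham, hai⟩ := hS a (Finset.mem_insert_self _ _)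
    have hap : Prime a := hai.prime
    have h1 : a ∣ (∏ f ∈ S', f) * Q := by
      rw [← hQ]; exact hG a (Finset.mem_insert_self _ _)
    rcases hap.dvd_or_dvd h1 with h2 | h2
    · exfalso
      obtain ⟨f, hf, haf⟩ := (hap.dvd_finsetProd_iff _).1 h2
      obtain ⟨hfm, hfi⟩ := hS f (Finset.mem_insert_of_mem hf)
      have hassoc : Associated a f := hai.associated_of_dvd hfi haf
      have : a = f := Polynomial.eq_of_monic_of_associated ham hfm hassoc
      exact ha (this ▸ hf)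
    · obtain ⟨Q', hQ'⟩ := h2
      refine ⟨Q', ?_⟩
      rw [hQ, hQ']
      ring

theorem result (n : ℕ) (hn : 2 ≤ n) (S : Finset ℤ[X]) (d : ℕ) (μ : ℝ) (g : (ZMod n)[X])
    (hg : g.Monic)
    (hS : ∀ f ∈ S, f.Monic ∧ Irreducible f ∧ f.natDegree ≤ d ∧ mahlerMeasureZ f ≤ μ ∧
      g ∣ f.map (Int.castRingHom (ZMod n))) (r : ℕ) :
    (n : ℝ) ^ (r * S.card * g.natDegree) ≤
      (((S.card : ℝ) * d) ^ S.card * (n : ℝ) ^ (r * (r + 1) / 2)) ^ d * μ ^ (S.card ^ 2 * d) := by
  classical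
  have : Fact (1 < n) := ⟨by omega⟩
  have : NeZero n := ⟨by omega⟩
  have hnt : Nontrivial (ZMod n) := nontriv_n
  have hnR : (1 : ℝ) ≤ (n : ℝ) := by exact_mod_cast (by omega : 1 ≤ n)
  have hsurj : Function.Surjective (Int.castRingHom (ZMod n)) := ZMod.intCast_surjective
  obtain ⟨g', hg'map, hg'deg, hg'm⟩ := Polynomial.lifts_and_natDegree_eq_and_monic
    (f := Int.castRingHom (ZMod n)) ((Polynomial.mem_lifts _).2 (Polynomial.map_surjective _ hsurj g)) hg
  rcases S.eq_empty_or_nonempty with hSe | hSne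
  · subst hSe
    simp only [Finset.card_empty, mul_zero, zero_mul, pow_zero, one_mul, Nat.cast_zero]
    have h1 : (1 : ℝ) ≤ (n : ℝ) ^ (r * (r + 1) / 2) := one_le_pow₀ hnR
    have h2 : (1 : ℝ) ≤ ((n : ℝ) ^ (r * (r + 1) / 2)) ^ d := one_le_pow₀ h1
    simpa using h2
  have hk : 1 ≤ S.card := Finset.card_pos.2 hSne
  obtain ⟨f0, hf0⟩ := hSne
  have hμ1 : 1 ≤ μ := by
    obtain ⟨h1, -, -, h4, -⟩ := hS f0 hf0
    exact (one_le_MZ h1).trans h4
  have hgle : ∀ f ∈ S, g.natDegree ≤ f.natDegree := by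
    intro f hf
    obtain ⟨h1, -, -, -, h5⟩ := hS f hf
    have h6 : (f.map (Int.castRingHom (ZMod n))).Monic := h1.map _
    obtain ⟨q, hq⟩ := h5
    have hq0 : q ≠ 0 := by
      rintro rfl
      rw [mul_zero] at hq
      exact h6.ne_zero hq
    have h7 : (f.map (Int.castRingHom (ZMod n))).natDegree = g.natDegree + q.natDegree := by
      rw [hq]; exact hg.natDegree_mul' hq0
    rw [h1.natDegree_map] at h7
    omega
  have hdpos : 1 ≤ d := by
    obtain ⟨h1, h2, h3, -, -⟩ := hS f0 hf0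
    have h8 : 0 < f0.natDegree := h1.natDegree_pos_of_not_isUnit h2.not_isUnit
    omega
  have hkdR : (1 : ℝ) ≤ (S.card : ℝ) * d := by
    have : 1 ≤ S.card * d := Nat.one_le_iff_ne_zero.2 (by positivity)
    exact_mod_cast this
  rcases Nat.eq_zero_or_pos g.natDegree with hg0 | hgpos
  · rw [hg0, mul_zero, pow_zero]
    have h1 : (1 : ℝ) ≤ ((S.card : ℝ) * d) ^ S.card * (n : ℝ) ^ (r * (r + 1) / 2) :=
      one_le_mul_of_one_le_of_one_le (one_le_pow₀ hkdR) (one_le_pow₀ hnR)
    exact one_le_mul_of_one_le_of_one_le (one_le_pow₀ h1) (one_le_pow₀ hμ1)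
  set D : ℕ := ∑ f ∈ S, f.natDegree with hD
  have hD1 : S.card * g.natDegree ≤ D := by
    rw [hD, ← smul_eq_mul]
    exact Finset.card_nsmul_le_sum _ _ _ hgle
  have hD2 : D ≤ S.card * d := by
    rw [hD, ← smul_eq_mul]
    exact Finset.sum_le_card_nsmul _ _ _ (fun f hf => (hS f hf).2.2.1)
  have hDpos : 0 < D := lt_of_lt_of_le (by positivity) hD1
  set X0 : ℕ := n ^ (g.natDegree * (r * (r + 1) / 2)) with hX0
  obtain ⟨B, hB1, hB2⟩ : ∃ B : ℕ, B ^ D ≤ X0 ∧ X0 < (B + 1) ^ D := by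
    have hex : ∃ B : ℕ, X0 < (B + 1) ^ D := ⟨X0, by
      calc X0 < X0 + 1 := Nat.lt_succ_self _
        _ = (X0 + 1) ^ 1 := (pow_one _).symm
        _ ≤ (X0 + 1) ^ D := Nat.pow_le_pow_right (by omega) hDpos⟩
    refine ⟨Nat.find hex, ?_, Nat.find_spec hex⟩
    rcases Nat.eq_zero_or_pos (Nat.find hex) with h0 | h0
    · rw [h0, zero_pow (by omega)]
      exact Nat.zero_le _
    · have := Nat.find_min hex (m := Nat.find hex - 1) (by omega)
      rw [not_lt, Nat.sub_add_cancel h0] at this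
      exact this
  obtain ⟨G, hG0, hGJ, hGdeg, hGc⟩ := exists_small_deg (n := n) hg'm r D B (by rw [hg'deg]; exact hB2)
  rw [Polynomial.degree_eq_natDegree hG0, Nat.cast_lt] at hGdeg
  -- some member of S does not divide G
  obtain ⟨f, hfS, hfG⟩ : ∃ f ∈ S, ¬ f ∣ G := by
    by_contra hcon
    push Not at hcon
    have h1 := prod_dvd_of_all S G (fun f hf => ⟨(hS f hf).1, (hS f hf).2.1⟩) hcon
    have h2 := Polynomial.natDegree_le_of_dvd h1 hG0
    rw [Polynomial.natDegree_prod_of_monic _ _ (fun f hf => (hS f hf).1)] at h2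
    omega
  obtain ⟨hfm, hfi, hfd, hfμ, hgf⟩ := hS f hfS
  have hfJ : f ∈ JJ n g' := mem_JJ_of_dvd (by
    show g'.map (Int.castRingHom (ZMod n)) ∣ f.map (Int.castRingHom (ZMod n))
    rw [hg'map]; exact hgf)
  have hres : resultant f G ≠ 0 := res_ne_zero hfm hfi hfG _ le_rfl
  have hlow := res_lower_n (n := n) hg'm hfm hfJ r hGJ hres
  have hup := res_upper hfm G _ le_rfl
  have hlen : (len G : ℝ) ≤ (D : ℝ) * B := by
    have h1 : len G ≤ (D : ℤ) * (B : ℤ) := by
      have hsub : G.support ⊆ Finset.range D := by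
        intro i hi
        rw [Finset.mem_range]
        have h2 := Polynomial.le_natDegree_of_mem_supp i hi
        omega
      rw [len]
      calc ∑ i ∈ G.support, |G.coeff i| ≤ ∑ i ∈ Finset.range D, |G.coeff i| :=
            Finset.sum_le_sum_of_subset_of_nonneg hsub (fun _ _ _ => abs_nonneg _)
        _ ≤ (Finset.range D).card • (B : ℤ) := Finset.sum_le_card_nsmul _ _ _ (fun i _ => hGc i)
        _ = (D : ℤ) * (B : ℤ) := by simp
    exact_mod_cast h1
  have h1 : (n : ℝ) ^ (r * g.natDegree) ≤ |((resultant f G : ℤ) : ℝ)| := by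
    have : ((n ^ (r * g'.natDegree) : ℕ) : ℝ) ≤
        (((resultant f G).natAbs : ℕ) : ℝ) := by exact_mod_cast hlow
    rw [Nat.cast_natAbs, Int.cast_abs, hg'deg] at this
    push_cast at this
    exact this
  have hM1 : 1 ≤ mahlerMeasureZ f := one_le_MZ hfm
  have hl0 : (0 : ℝ) ≤ (len G : ℝ) := by exact_mod_cast len_nonneg G
  have h2 : (n : ℝ) ^ (r * g.natDegree) ≤ ((D : ℝ) * B) ^ f.natDegree * μ ^ D := by
    refine h1.trans (hup.trans ?_)
    have h3 : MZ f ^ G.natDegree ≤ μ ^ D := by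
      calc MZ f ^ G.natDegree ≤ μ ^ G.natDegree := pow_le_pow_left₀ (by linarith) hfμ _
        _ ≤ μ ^ D := pow_le_pow_right₀ hμ1 hGdeg.le
    gcongr
  -- B ^ k ≤ n ^ (r (r + 1) / 2)
  have hBpos : 1 ≤ B := by
    by_contra hB0
    have : B = 0 := by omega
    rw [this, zero_add, one_pow] at hB2
    have : 1 ≤ X0 := Nat.one_le_pow _ _ (by omega)
    omega
  have hBk : B ^ S.card ≤ n ^ (r * (r + 1) / 2) := by
    have h3 : (B ^ S.card) ^ g.natDegree ≤ (n ^ (r * (r + 1) / 2)) ^ g.natDegree := by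
      calc (B ^ S.card) ^ g.natDegree = B ^ (S.card * g.natDegree) := (pow_mul _ _ _).symm
        _ ≤ B ^ D := Nat.pow_le_pow_right hBpos hD1
        _ ≤ X0 := hB1
        _ = (n ^ (r * (r + 1) / 2)) ^ g.natDegree := by rw [hX0, ← pow_mul, mul_comm]
    exact (Nat.pow_le_pow_iff_left (by omega)).1 h3
  have hBkR : (B : ℝ) ^ S.card ≤ (n : ℝ) ^ (r * (r + 1) / 2) := by exact_mod_cast hBk
  have hDR : (D : ℝ) ≤ (S.card : ℝ) * d := by exact_mod_cast hD2
  have hDR1 : (1 : ℝ) ≤ (D : ℝ) := by exact_mod_cast hDpos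
  have hBR1 : (1 : ℝ) ≤ (B : ℝ) := by exact_mod_cast hBpos
  have h4 := pow_le_pow_left₀ (by positivity) h2 S.card
  have e0 : ((n : ℝ) ^ (r * g.natDegree)) ^ S.card = (n : ℝ) ^ (r * S.card * g.natDegree) := by
    rw [← pow_mul]; congr 1; ring
  rw [e0, mul_pow] at h4
  refine h4.trans ?_
  have h5 : (((D : ℝ) * B) ^ f.natDegree) ^ S.card ≤
      (((S.card : ℝ) * d) ^ S.card * (n : ℝ) ^ (r * (r + 1) / 2)) ^ d := by
    calc (((D : ℝ) * B) ^ f.natDegree) ^ S.card = ((D : ℝ) ^ S.card * (B : ℝ) ^ S.card) ^ f.natDegree := by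
          rw [← mul_pow, ← pow_mul, ← pow_mul, Nat.mul_comm S.card]
      _ ≤ ((D : ℝ) ^ S.card * (B : ℝ) ^ S.card) ^ d := by
          apply pow_le_pow_right₀ _ hfd
          exact one_le_mul_of_one_le_of_one_le (one_le_pow₀ hDR1) (one_le_pow₀ hBR1)
      _ ≤ _ := by gcongr
  have h6 : (μ ^ D) ^ S.card ≤ μ ^ (S.card ^ 2 * d) := by
    rw [← pow_mul]
    apply pow_le_pow_right₀ hμ1
    calc D * S.card ≤ (S.card * d) * S.card := Nat.mul_le_mul_right _ hD2
      _ = S.card ^ 2 * d := by ring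
  gcongr

end Pool.Agent.Results.MP_dc0c68_nt.FewPerResidueClass
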