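import Mathlib
import Pool.Prelude.Def_F_0dc91acc
import Pool.Agent.H338R2.FourF

/-!
# The strong Lehmer bound for polynomials with at most four coefficients not divisible by a prime

Let `p` be a prime and `f` an integer polynomial none of whose complex zeros is `0` or a root of
unity.  Suppose that for some nonzero `Q` over `ZMod p` which is reciprocal up to sign (for
instance `Q = 1` or `Q = X - 1`) the product `Q * (f mod p)` has at most four nonzero coefficients.
Then `2 ^ deg f ≤ M(f) ^ (4 * (deg f + deg Q))`.  For `Q = 1`: `M(f) ≥ 2 ^ (1/4) = 1.189... > M(L)`.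

Method: a nonreciprocal irreducible factor `g` of `f` satisfies `M(g) ≤ 2 (M(g) ^ 2 - 1)` (Smyth's
method, here by an algebraic argument on power series), so `M(g) ^ 4 ≥ 2`. If all irreducible
factors are reciprocal, then `T = Q * (f mod p)` is, up to a constant, one of `X ^ e ± 1`,
`X ^ (2 n) + A X ^ n + 1`, `1 + A X ^ k ± A X ^ l ± X ^ (k + l)`, and one uses resultants with
suitable explicit elements of small length of the ideals `(p, T) ^ r`, `r ≤ 4`.
-/

set_option autoImplicit false

open Polynomial N60ffa576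

namespace Pool.Agent.Results.MP_dc0c68_nt.FourTermsModP

theorem result (p : ℕ) [Fact p.Prime] (f : ℤ[X]) (Q : (ZMod p)[X])
    (hf : ∀ z : ℂ, aeval z f = 0 → z ≠ 0 ∧ ∀ n : ℕ, 0 < n → z ^ n ≠ 1)
    (hQ0 : Q ≠ 0) (hQ : Q.reverse = Q ∨ Q.reverse = -Q)
    (hcard : (Q * f.map (Int.castRingHom (ZMod p))).support.card ≤ 4) :
    (2 : ℝ) ^ f.natDegree ≤ (mahlerMeasureZ f) ^ (4 * (f.natDegree + Q.natDegree)) := by
  refine Pool.Agent.H338R2.four_main p f ?_ Q hQ0 hQ hcard
  intro z hz
  apply hf z
  rw [Polynomial.aeval_def, ← Polynomial.eval_map]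
  exact hz

end Pool.Agent.Results.MP_dc0c68_nt.FourTermsModP
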