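import Mathlib
import Pool.Agent.H420R4.ML.Main2

/-!
# Lehmer's problem for polynomials with many real, or many p-adic, zeros

Let `bd D N = (N ^ 2 / D) * max (1 / log (2 D / N), min (1, N ^ 2 / (D log (2 D))))`.
For an irreducible `f` in `Z[X]` of degree `D` with Mahler measure different from `1` and for
every place of `Q`:

* (infinite place) if `N` of the complex zeros `z` satisfy `|arg (z ^ E)| ≤ θ`, then
  `log M(f) + N θ ≥ c * bd D N` with `c > 0` depending only on `E` (for `E = 2` and `θ = 0`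
  these are the real zeros);
* (finite places) if `N` of the zeros in an algebraic closure of `Q_p` have degree at most `n`
  over `Q_p`, then `log M(f) ≥ c * bd D N` with `c > 0` depending only on `p` and `n`.
-/

set_option autoImplicit false

namespace Pool.Agent.Results.MP_dc0c68_nt.ManyLocalConjugates

open Polynomial

/-- the lower bound, as a function of the degree `D` and of the number `N` of zeros -/
noncomputable def bd (D N : ℕ) : ℝ := (N : ℝ) ^ 2 / D *
  max (1 / Real.log (2 * D / N)) (min 1 ((N : ℝ) ^ 2 / (D * Real.log (2 * D))))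

theorem result :
    (∀ E : ℕ, 1 ≤ E → ∃ c : ℝ, 0 < c ∧ ∀ f : ℤ[X], Irreducible f →
      (f.map (Int.castRingHom ℂ)).mahlerMeasure ≠ 1 → ∀ (θ : ℝ) (S : Finset ℂ), 0 ≤ θ →
      (∀ z ∈ S, aeval z f = 0 ∧ |Complex.arg (z ^ E)| ≤ θ) →
      c * bd f.natDegree S.card ≤
        Real.log (f.map (Int.castRingHom ℂ)).mahlerMeasure + S.card * θ) ∧
    (∀ (p : ℕ) [Fact p.Prime] (n : ℕ), ∃ c : ℝ, 0 < c ∧ ∀ f : ℤ[X], Irreducible f →
      (f.map (Int.castRingHom ℂ)).mahlerMeasure ≠ 1 → ∀ S : Finset (PadicAlgCl p),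
      (∀ z ∈ S, aeval z f = 0 ∧ (minpoly ℚ_[p] z).natDegree ≤ n) →
      c * bd f.natDegree S.card ≤
        Real.log (f.map (Int.castRingHom ℂ)).mahlerMeasure) :=
  ⟨fun E hE => H420R4.main2_arch E hE, fun p _ n => H420R4.main2_padic p n⟩

end Pool.Agent.Results.MP_dc0c68_nt.ManyLocalConjugates
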